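import Mathlib

set_option autoImplicit false

namespace Pool.Agent.Results.MP_322323_co.Neg

/-- `u ⊂ v` for a binary partial word `u` (`none` is a hole) and a full word `v` of the same
length: `v` carries the letter of `u` at every position that is not a hole. -/
def Sub (u : List (Option Bool)) (v : List Bool) : Prop :=
  List.Forall₂ (fun a b => a = none ∨ a = some b) u v

/-- `Sq w`: the number of nonempty full words `x` such that some factor `u` of `w` has
`u ⊂ xx`. -/
noncomputable def Sq (w : List (Option Bool)) : ℕ :=
  Set.ncard {x : List Bool | x ≠ [] ∧ ∃ u, u <:+: w ∧ Sub u (x ++ x)}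

/-- `w'` is a strengthening of `w`: exactly one hole is replaced by a letter. -/
def Str (w w' : List (Option Bool)) : Prop :=
  ∃ (i : ℕ) (b : Bool), w[i]? = some none ∧ w' = w.set i (some b)

/-- the values `Sq w - Sq w'` for `|w| = n`, `w` with `h` holes and `w'` a strengthening of `w`;
`Δ_h Sq(n)` is the greatest element of this set. -/
def Drops (h n : ℕ) : Set ℤ :=
  {d | ∃ w w' : List (Option Bool), w.length = n ∧ w.count none = h ∧ Str w w' ∧
    d = (Sq w : ℤ) - Sq w'}

def ok (a : Option Bool) (c : Bool) : Bool := decide (a = none ∨ a = some c)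

def fills : List (Option Bool) → List (Option Bool) → List (List Bool)
  | [], [] => [[]]
  | [], _ :: _ => []
  | _ :: _, [] => []
  | a :: s, b :: t => ([false, true].filter (fun c => ok a c && ok b c)).flatMap
      (fun c => (fills s t).map (fun y => c :: y))

theorem mem_fills (s : List (Option Bool)) : ∀ (t : List (Option Bool)) (x : List Bool),
    x ∈ fills s t ↔ Sub s x ∧ Sub t x := by
  unfold Sub
  induction s with
  | nil =>
    intro t x
    cases t with
    | nil => simp [fills]
    | cons b t =>
      cases x <;> simp [fills]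
  | cons a s ih =>
    intro t x
    cases t with
    | nil => cases x <;> simp [fills]
    | cons b t =>
      cases x with
      | nil => simp [fills]
      | cons c y =>
        simp only [fills, List.mem_flatMap, List.mem_filter, List.mem_map, List.cons.injEq,
          List.forall₂_cons, Bool.and_eq_true, ok, decide_eq_true_eq]
        constructor
        · rintro ⟨c', ⟨-, h1, h2⟩, y', h3, rfl, rfl⟩
          exact ⟨⟨h1, ((ih t _).1 h3).1⟩, h2, ((ih t _).1 h3).2⟩
        · rintro ⟨⟨h1, h3⟩, h2, h4⟩
          exact ⟨c, ⟨by cases c <;> simp, h1, h2⟩, y, (ih t y).2 ⟨h3, h4⟩, rfl, rfl⟩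

def sqs (w : List (Option Bool)) : List (List Bool) :=
  ((w.tails.flatMap List.inits).flatMap
    (fun u => fills (u.take (u.length / 2)) (u.drop (u.length / 2)))).filter (fun x => x != [])

theorem sq_eq (w : List (Option Bool)) : Sq w = (sqs w).toFinset.card := by
  unfold Sq
  rw [← Set.ncard_coe_finset]
  congr 1
  ext x
  simp only [Set.mem_setOf_eq, Finset.mem_coe, List.mem_toFinset, sqs, List.mem_filter,
    List.mem_flatMap, List.mem_tails, List.mem_inits, mem_fills, bne_iff_ne, ne_eq]
  constructor
  · rintro ⟨h1, u, h2, h3⟩
    obtain ⟨t, h4, h5⟩ := List.infix_iff_prefix_suffix.1 h2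
    have h6 : u.length / 2 = x.length := by
      have h7 := List.Forall₂.length_eq h3
      rw [List.length_append] at h7
      omega
    refine ⟨⟨u, ⟨t, h5, h4⟩, ?_, ?_⟩, h1⟩
    · rw [h6]
      exact List.forall₂_take_append u x x h3
    · rw [h6]
      exact List.forall₂_drop_append u x x h3
  · rintro ⟨⟨u, ⟨t, h5, h4⟩, h2, h3⟩, h1⟩
    refine ⟨h1, u, List.infix_iff_prefix_suffix.2 ⟨t, h4, h5⟩, ?_⟩
    rw [← List.take_append_drop (u.length / 2) u]
    exact List.rel_append h2 h3

def w0 : List (Option Bool) := [some false, some true, some true, some true, some true, some true, some false, some true, some true, some true, none, none, some true, some false, some true, some true, some true, some true, some true, some false, some true, some true]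

theorem s0 : Sq w0 = 23 := by
  rw [sq_eq]
  decide +kernel

theorem s1 : Sq (w0.set 11 (some false)) = 8 := by
  rw [sq_eq]
  decide +kernel

theorem mem15 : (15 : ℤ) ∈ Drops 2 22 :=
  ⟨w0, w0.set 11 (some false), by decide, by decide, ⟨11, false, by decide, rfl⟩, by
    rw [s0, s1]
    norm_num⟩

/-- A word of length 22 with two holes has a strengthening losing 15 squares, while
`⌊7·21/10⌋ = 14`; hence the conjectured formula for `Δ_2 Sq(n)` fails. -/
theorem result :
    (15 : ℤ) ∈ Drops 2 22 ∧
    ¬ ∀ n : ℕ, 8 ≤ n → IsGreatest (Drops 2 n) ((7 * (n - 1) / 10 : ℕ) : ℤ) :=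
  ⟨mem15, fun h => by
    have h1 := (h 22 (by norm_num)).2 mem15
    norm_num at h1⟩

end Pool.Agent.Results.MP_322323_co.Neg
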